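import Mathlib
import Pool.Agent.H576.CT.Stm

/-!
helper672 for helper576 (project CT, MP_10effd_pr): hierarchical geodesic links (task LINK).
-/

set_option autoImplicit false

namespace Pool.Agent.H672

open Finset Pool.Agent.TH112.BW Pool.Agent.H576.CT

section aux

variable {V : Type} {G : SimpleGraph V}

/-- along a walk inside `L` the function changes by at most `c` in every step -/
theorem ct_walk {L : Finset V} {f : V → ℝ} {c : ℝ}
    (h : ∀ x ∈ L, ∀ y ∈ L, G.Adj x y → f x - f y ≤ c) {x y : V} (w : G.Walk x y) :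
    (∀ z ∈ w.support, z ∈ L) → f x - f y ≤ w.length * c ∧ f y - f x ≤ w.length * c := by
  induction w with
  | nil => intro _; simp
  | @cons u v t huv w ih =>
    intro hw
    have hu : u ∈ L := hw u (by simp)
    have hv : v ∈ L := hw v (by simp)
    obtain ⟨h1, h2⟩ := ih (fun z hz => hw z (by simp [hz]))
    have h3 := h u hu v hv huv
    have h4 := h v hv u hu huv.symm
    rw [SimpleGraph.Walk.length_cons]
    push_cast
    rw [add_mul, one_mul]
    constructor <;> linarith

theorem ct_take [DecidableEq V] {x y : V} (w : G.Walk x y) {z : V} (hz : z ∈ w.support) :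
    G.dist x z ≤ w.length :=
  (SimpleGraph.dist_le (w.takeUntil z hz)).trans (SimpleGraph.Walk.length_takeUntil_le_length w hz)

theorem ct_drop [DecidableEq V] {x y : V} (w : G.Walk x y) {z : V} (hz : z ∈ w.support) :
    G.dist z y ≤ w.length :=
  (SimpleGraph.dist_le (w.dropUntil z hz)).trans (SimpleGraph.Walk.length_dropUntil_le_length w hz)

end aux

theorem ct_link (h1 : S_NET) (h2 : S_PACK) : S_LINK := by
  intro V _ _ G hG a ρ J hJ1 hJ2 A hA hAne
  choose W hW using fun x y => hG.exists_walk_length_eq_dist x y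
  have hnet : ∀ j : ℕ, ∃ (P : Finset V) (ν : V → V),
      (∀ x ∈ P, ∀ y ∈ P, x ≠ y → 2 ^ j ≤ G.dist x y) ∧
      ∀ x, ν x ∈ P ∧ G.dist x (ν x) < 2 ^ j := by
    intro j
    obtain ⟨P, -, hs, hc, -⟩ := h1 V G hG a (2 ^ j) Nat.one_le_two_pow
    choose ν hν using hc
    exact ⟨P, ν, hs, hν⟩
  choose P ν hP hν using hnet
  obtain ⟨p, hp0, hps⟩ : ∃ p : ℕ → V → V, (∀ v, p 0 v = v) ∧
      ∀ j v, p (j + 1) v = ν (j + 1) (p j v) :=
    ⟨fun j => Nat.rec (fun v => v) (fun i q v => ν (i + 1) (q v)) j, fun _ => rfl, fun _ _ => rfl⟩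
  have hdist : ∀ j v, G.dist v (p j v) + 2 ≤ 2 ^ (j + 1) := by
    intro j v
    induction j with
    | zero => rw [hp0, SimpleGraph.dist_self]; norm_num
    | succ j ih =>
      have h3 := hG.dist_triangle (u := v) (v := p j v) (w := p (j + 1) v)
      have h4 := (hν (j + 1) (p j v)).2
      rw [← hps] at h4
      rw [pow_succ 2 (j + 1)]
      omega
  have hpow : ∀ j ≤ J, 2 ^ j ≤ 2 ^ J := fun j hj => Nat.pow_le_pow_right (by norm_num) hj
  have hJ3 : ρ < 2 * 2 ^ J := by rw [pow_succ] at hJ2; omega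
  have hball : ∀ v ∈ A, ∀ j ≤ J, G.dist a (p j v) ≤ 5 * ρ := by
    intro v hv j hj
    have h3 : G.dist a v ≤ 3 * ρ := (mem_filter.1 (hA hv)).2
    have h4 := hG.dist_triangle (u := a) (v := v) (w := p j v)
    have h5 := hdist j v
    have h6 := hpow j hj
    rw [pow_succ] at h5
    omega
  obtain ⟨tg, htg1, htg2⟩ : ∃ tg : ℕ → V → V, (∀ j u, j < J → tg j u = ν (j + 1) u) ∧
      ∀ u, tg J u = a :=
    ⟨fun j u => if j < J then ν (j + 1) u else a, fun j u hj => if_pos hj,
      fun u => if_neg (lt_irrefl _)⟩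
  have hlen : ∀ v ∈ A, ∀ j ≤ J, G.dist (p j v) (tg j (p j v)) + 1 ≤ 11 * 2 ^ j := by
    intro v hv j hj
    rcases hj.lt_or_eq with h | h
    · rw [htg1 j _ h]
      have h3 := (hν (j + 1) (p j v)).2
      rw [pow_succ] at h3
      omega
    · subst h
      rw [htg2, SimpleGraph.dist_comm]
      have h3 := hball v hv j le_rfl
      omega
  have hsub : ∀ v ∈ A, ∀ j ≤ J, ∀ z ∈ (W (p j v) (tg j (p j v))).support, G.dist a z ≤ 6 * ρ := by
    intro v hv j hj z hz
    have h3 := hball v hv j hj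
    rcases hj.lt_or_eq with h | h
    · have h4 := ct_take _ hz
      rw [hW, htg1 j _ h] at h4
      have h5 := (hν (j + 1) (p j v)).2
      have h6 := hpow (j + 1) h
      have h7 := hG.dist_triangle (u := a) (v := p j v) (w := z)
      omega
    · subst h
      have h4 := ct_drop _ hz
      rw [hW, htg2, SimpleGraph.dist_comm (u := z), SimpleGraph.dist_comm (u := p j v)] at h4
      omega
  obtain ⟨L, hL⟩ : ∃ L : ℕ → Finset V, ∀ j, L j =
      (A.image (p j)).biUnion fun u => (W u (tg j u)).support.toFinset := ⟨_, fun _ => rfl⟩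
  have hmem : ∀ v ∈ A, ∀ j, ∀ z ∈ (W (p j v) (tg j (p j v))).support, z ∈ L j := by
    intro v hv j z hz
    rw [hL, mem_biUnion]
    exact ⟨p j v, mem_image_of_mem _ hv, List.mem_toFinset.2 hz⟩
  refine ⟨L, fun j hj => ⟨?_, ?_, (A.image (p j)).card, ?_, card_image_le, ?_⟩, ?_⟩
  · obtain ⟨v, hv⟩ := hAne
    exact ⟨p j v, hmem v hv j _ (SimpleGraph.Walk.start_mem_support _)⟩
  · intro z hz
    rw [hL, mem_biUnion] at hz
    obtain ⟨u, hu, hz⟩ := hz
    obtain ⟨v, hv, rfl⟩ := mem_image.1 hu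
    exact mem_filter.2 ⟨mem_univ _, hsub v hv j hj z (List.mem_toFinset.1 hz)⟩
  · rw [hL, mul_comm]
    refine card_biUnion_le_card_mul _ _ _ fun u hu => ?_
    obtain ⟨v, hv, rfl⟩ := mem_image.1 hu
    refine (List.toFinset_card_le _).trans ?_
    rw [SimpleGraph.Walk.length_support, hW]
    exact hlen v hv j hj
  · intro q hq
    have h3 : (A.image (p j)).card * q ≤ (ball G a (5 * ρ + 2 ^ j / 4)).card := by
      refine h2 V G hG (A.image (p j)) (2 ^ j) (2 ^ j / 4) ?_ ?_ q hq a (5 * ρ) ?_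
      · have : 1 ≤ 2 ^ j := Nat.one_le_two_pow
        omega
      · intro x hx y hy hxy
        obtain ⟨v, hv, rfl⟩ := mem_image.1 hx
        obtain ⟨v', hv', rfl⟩ := mem_image.1 hy
        rcases Nat.eq_zero_or_pos j with h | h
        · subst h
          rw [pow_zero]
          exact hG.pos_dist_of_ne hxy
        · obtain ⟨i, rfl⟩ : ∃ i, j = i + 1 := ⟨j - 1, by omega⟩
          refine hP (i + 1) _ ?_ _ ?_ hxy
          · rw [hps]; exact (hν (i + 1) _).1
          · rw [hps]; exact (hν (i + 1) _).1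
      · intro x hx
        obtain ⟨v, hv, rfl⟩ := mem_image.1 hx
        exact mem_filter.2 ⟨mem_univ _, hball v hv j hj⟩
    refine h3.trans (card_le_card fun x hx => ?_)
    have h4 : G.dist a x ≤ 5 * ρ + 2 ^ j / 4 := (mem_filter.1 hx).2
    have h5 := hpow j hj
    exact mem_filter.2 ⟨mem_univ _, by omega⟩
  · intro f I hI hf v hv
    have hstep : ∀ j ≤ J, f (p j v) - f (tg j (p j v)) ≤
        (G.dist (p j v) (tg j (p j v)) : ℝ) * (I / 4 ^ j) ∧
        f (tg j (p j v)) - f (p j v) ≤ (G.dist (p j v) (tg j (p j v)) : ℝ) * (I / 4 ^ j) := by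
      intro j hj
      have h3 := ct_walk (hf j hj) (W (p j v) (tg j (p j v))) (hmem v hv j)
      rwa [hW] at h3
    have hsum : ∀ j ≤ J, f v - f (p j v) ≤ 4 * I * (1 - 1 / 2 ^ j) ∧
        f (p j v) - f v ≤ 4 * I * (1 - 1 / 2 ^ j) := by
      intro j
      induction j with
      | zero => intro _; rw [hp0]; simp
      | succ j ih =>
        intro hj
        obtain ⟨i1, i2⟩ := ih (by omega)
        obtain ⟨s1, s2⟩ := hstep j (by omega)
        rw [htg1 j _ (by omega), ← hps] at s1 s2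
        have h3 : (G.dist (p j v) (p (j + 1) v) : ℝ) ≤ 2 * 2 ^ j := by
          have h4 := (hν (j + 1) (p j v)).2
          rw [← hps, pow_succ] at h4
          have h5 : G.dist (p j v) (p (j + 1) v) ≤ 2 * 2 ^ j := by omega
          exact_mod_cast h5
        have h6 : (G.dist (p j v) (p (j + 1) v) : ℝ) * (I / 4 ^ j) ≤ 2 * I / 2 ^ j := by
          have h7 : (4 : ℝ) ^ j = 2 ^ j * 2 ^ j := by
            rw [← mul_pow]; norm_num
          calc (G.dist (p j v) (p (j + 1) v) : ℝ) * (I / 4 ^ j) ≤ 2 * 2 ^ j * (I / 4 ^ j) :=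
                mul_le_mul_of_nonneg_right h3 (by positivity)
            _ = 2 * I / 2 ^ j := by rw [h7]; field_simp
        have h8 : 4 * I * (1 - 1 / 2 ^ (j + 1)) = 4 * I * (1 - 1 / 2 ^ j) + 2 * I / 2 ^ j := by
          rw [pow_succ]; field_simp; ring
        rw [h8]
        constructor <;> linarith
    obtain ⟨i1, i2⟩ := hsum J le_rfl
    obtain ⟨s1, s2⟩ := hstep J le_rfl
    rw [htg2] at s1 s2
    have h3 : (G.dist (p J v) a : ℝ) * (I / 4 ^ J) ≤ 10 * I := by
      have h4 := hball v hv J le_rfl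
      rw [SimpleGraph.dist_comm] at h4
      have h5 : G.dist (p J v) a ≤ 10 * 2 ^ J := by omega
      have h6 : (G.dist (p J v) a : ℝ) ≤ 10 * 4 ^ J := by
        have h7 : (2 : ℝ) ^ J ≤ 4 ^ J := pow_le_pow_left₀ (by norm_num) (by norm_num) J
        have h8 : (G.dist (p J v) a : ℝ) ≤ 10 * 2 ^ J := by exact_mod_cast h5
        linarith
      calc (G.dist (p J v) a : ℝ) * (I / 4 ^ J) ≤ 10 * 4 ^ J * (I / 4 ^ J) :=
            mul_le_mul_of_nonneg_right h6 (by positivity)
        _ = 10 * I := by field_simp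
    have h4 : 4 * I * (1 - 1 / 2 ^ J) ≤ 4 * I := by
      have h5 : (0 : ℝ) ≤ 1 / 2 ^ J := by positivity
      nlinarith
    constructor <;> linarith

end Pool.Agent.H672
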