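import Pool.Agent.H683.CV.Lem

/-!
# CV: choice of different indices with prescribed values
-/

set_option autoImplicit false

namespace Pool.Agent.H672.CVCol

open Pool.Agent.H683.CV

theorem mul_eq (n y : ℕ) (B : List ℕ) :
    mul n B y = ((Finset.range B.length).filter fun i => min (B.getD i 0) n = y).card := by
  induction B using List.reverseRecOn with
  | nil => simp [mul]
  | append_singleton l a ih =>
    have h1 : mul n (l ++ [a]) y = mul n l y + if min a n = y then 1 else 0 := by
      unfold mul
      rw [List.filter_append, List.length_append]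
      by_cases h : min a n = y <;> simp [h]
    have h2 : ((Finset.range l.length).filter fun i => min ((l ++ [a]).getD i 0) n = y) =
        ((Finset.range l.length).filter fun i => min (l.getD i 0) n = y) := by
      refine Finset.filter_congr fun i hi => ?_
      rw [Finset.mem_range] at hi
      rw [List.getD_append _ _ _ _ hi]
    rw [h1, ih, List.length_append, List.length_singleton, Finset.range_add_one,
      Finset.filter_insert, h2]
    have h3 : (l ++ [a]).getD l.length 0 = a := by
      rw [List.getD_append_right _ _ _ _ le_rfl]; simp
    rw [h3]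
    by_cases h : min a n = y
    · rw [if_pos h, if_pos h, Finset.card_insert_of_notMem (by simp)]
    · rw [if_neg h, if_neg h]; rfl

theorem COL : S_COL := by
  intro n p B x h
  have h1 : ∀ y, ∃ f : ℕ → ℕ,
      (∀ j ∈ (Finset.range p).filter (fun j => x.getD j 0 = y),
        f j ∈ (Finset.range B.length).filter (fun i => min (B.getD i 0) n = y)) ∧
      Set.InjOn f ((Finset.range p).filter (fun j => x.getD j 0 = y) : Finset ℕ) := by
    intro y
    have h2 := h y
    rw [mul_eq] at h2
    have h3 : (((Finset.range p).filter fun j => x.getD j 0 = y : Finset ℕ) : Set ℕ).encard ≤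
        (((Finset.range B.length).filter fun i => min (B.getD i 0) n = y : Finset ℕ) :
          Set ℕ).encard := by
      rw [Set.encard_coe_eq_coe_finsetCard, Set.encard_coe_eq_coe_finsetCard]
      exact_mod_cast h2
    obtain ⟨f, hf, hi⟩ := Set.Finite.exists_injOn_of_encard_le (Finset.finite_toSet _) h3
    exact ⟨f, fun j hj => hf (Finset.mem_coe.2 hj), hi⟩
  choose f hf hi using h1
  refine ⟨fun j => f (x.getD j 0) j, ?_, ?_, ?_⟩
  · intro j hj
    have := hf (x.getD j 0) j (by simp [hj])
    rw [Finset.mem_filter, Finset.mem_range] at this
    exact this.1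
  · intro i hip j hjp hij
    have h1 := hf (x.getD i 0) i (by simp [hip])
    have h2 := hf (x.getD j 0) j (by simp [hjp])
    rw [Finset.mem_filter] at h1 h2
    have h3 : x.getD i 0 = x.getD j 0 := by
      rw [← h1.2, ← h2.2]
      show min (B.getD (f (x.getD i 0) i) 0) n = _
      have hij' : f (x.getD i 0) i = f (x.getD j 0) j := hij
      rw [hij']
    refine hi (x.getD i 0) ?_ ?_ ?_
    · rw [Finset.mem_coe, Finset.mem_filter, Finset.mem_range]
      exact ⟨hip, rfl⟩
    · rw [Finset.mem_coe, Finset.mem_filter, Finset.mem_range]
      exact ⟨hjp, h3.symm⟩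
    · have hij' : f (x.getD i 0) i = f (x.getD j 0) j := hij
      rw [hij', h3]
  · intro j hj
    have := hf (x.getD j 0) j (by simp [hj])
    rw [Finset.mem_filter] at this
    exact this.2.symm
end Pool.Agent.H672.CVCol
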